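import Pool.Agent.R231.GB.Final

set_option autoImplicit false

open Filter Topology Set Metric Asymptotics

namespace Pool.Agent.Results.MP_f98e31_an.SmoothRigid

/-- the symmetrized bidisc -/
def G2 : Set (ℂ × ℂ) := {z | ∃ a b : ℂ, ‖a‖ < 1 ∧ ‖b‖ < 1 ∧ z = (a + b, a * b)}

/-- its Shilov boundary -/
def Shilov : Set (ℂ × ℂ) := {z | ∃ a b : ℂ, ‖a‖ = 1 ∧ ‖b‖ = 1 ∧ z = (a + b, a * b)}

/-- Every point of `∂G₂ ∖ S` has the Burns–Krantz rigidity property. -/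
theorem result (p : ℂ × ℂ) (hp : p ∈ frontier G2 \ Shilov)
    (F : ℂ × ℂ → ℂ × ℂ) (hF : DifferentiableOn ℂ F G2) (hm : MapsTo F G2 G2)
    (hBK : (fun z => F z - z) =o[𝓝[G2] p]
      fun z => (√(‖z.1 - p.1‖ ^ 2 + ‖z.2 - p.2‖ ^ 2)) ^ 3) :
    ∀ z ∈ G2, F z = z := by
  obtain ⟨hf, hS⟩ := hp
  have hopen : IsOpen G2 := Pool.Agent.R231.GB.G2_open
  have hnp : p ∉ G2 := by
    rw [hopen.frontier_eq] at hf
    exact hf.2
  obtain ⟨a, b, ha, hb, hpab⟩ := Pool.Agent.R231.GB.closure_G2 (frontier_subset_closure hf)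
  subst hpab
  rcases ha.lt_or_eq with ha' | ha'
  · rcases hb.lt_or_eq with hb' | hb'
    · exact absurd ⟨a, b, ha', hb', rfl⟩ hnp
    · have e : (a + b, a * b) = (b + a, b * a) := by rw [add_comm, mul_comm]
      rw [e] at hBK
      exact Pool.Agent.R231.GB.main_point hF hm hb' ha' hBK
  · rcases hb.lt_or_eq with hb' | hb'
    · exact Pool.Agent.R231.GB.main_point hF hm ha' hb' hBK
    · exact absurd ⟨a, b, ha', hb', rfl⟩ hS

end Pool.Agent.Results.MP_f98e31_an.SmoothRigid
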